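import Mathlib
import Pool.Agent.P.MP_f0f1b2_co.Construction

/-!
Conflict-free colouring of disk families of bounded ply: the bound `C log t` is false.
-/

namespace Pool.Agent.Results.MP_f0f1b2_co.NotLogPly

/-- A disk: a closed Euclidean disk of positive radius in the plane. -/
def IsDisk (D : Set (EuclideanSpace ℝ (Fin 2))) : Prop :=
  ∃ (z : EuclideanSpace ℝ (Fin 2)) (r : ℝ), 0 < r ∧ D = Metric.closedBall z r

/-- The family has ply at most `t`: no point of the plane lies in more than `t` members. -/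
def PlyLE (𝒟 : Finset (Set (EuclideanSpace ℝ (Fin 2)))) (t : ℕ) : Prop :=
  ∀ p : EuclideanSpace ℝ (Fin 2), {D ∈ (𝒟 : Set (Set (EuclideanSpace ℝ (Fin 2)))) | p ∈ D}.ncard ≤ t

/-- The colouring `c` of the members of the family is conflict-free: every covered point lies in
a member whose colour no other member containing the point has. -/
def IsConflictFree (𝒟 : Finset (Set (EuclideanSpace ℝ (Fin 2)))) {k : ℕ} (c : 𝒟 → Fin k) : Prop :=
  ∀ p : EuclideanSpace ℝ (Fin 2), (∃ D : 𝒟, p ∈ D.1) →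
    ∃ D : 𝒟, p ∈ D.1 ∧ ∀ D' : 𝒟, p ∈ D'.1 → D' ≠ D → c D' ≠ c D

open Pool.Agent.P.MP_f0f1b2_co in
theorem result : ∀ C : ℝ, ∃ t : ℕ, 2 ≤ t ∧
    ∃ 𝒟 : Finset (Set (EuclideanSpace ℝ (Fin 2))), (∀ D ∈ 𝒟, IsDisk D) ∧ PlyLE 𝒟 t ∧
      ∀ (k : ℕ) (c : 𝒟 → Fin k), IsConflictFree 𝒟 c →
        C * Real.log t < ((Set.range c).ncard : ℝ) := by
  classical
  intro C
  obtain ⟨n, hn⟩ := exists_nat_gt (8 * |C|)
  have hC : 0 ≤ |C| := abs_nonneg C
  have hn1 : 1 ≤ n := by
    have : (0 : ℝ) < n := by linarith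
    exact_mod_cast this
  set K := n ^ 2 with hKdef
  have hK1 : 1 ≤ K := Nat.one_le_pow _ _ hn1
  let disk : ℝ × ℝ → Set (EuclideanSpace ℝ (Fin 2)) := fun q => Metric.closedBall !₂[q.1, q.2] q.2
  have hmem : ∀ (q : ℝ × ℝ), 0 < q.2 → ∀ p : EuclideanSpace ℝ (Fin 2),
      p ∈ disk q ↔ inD q (p 0) (p 1) := by
    intro q hq p
    simp only [disk, Metric.mem_closedBall, EuclideanSpace.dist_eq, Fin.sum_univ_two, inD,
      Real.dist_eq, sq_abs]
    rw [Real.sqrt_le_left hq.le]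
    simp
  have hinj : ∀ q q' : ℝ × ℝ, 0 < q.2 → 0 < q'.2 → disk q = disk q' → q = q' := by
    intro q q' hq hq' h
    have h1 : inD q' q.1 0 := by
      have : (!₂[q.1, 0] : EuclideanSpace ℝ (Fin 2)) ∈ disk q := by
        rw [hmem q hq]; simp [inD]
      rw [h, hmem q' hq'] at this
      simpa using this
    have e1 : q.1 = q'.1 := by
      unfold inD at h1
      have : (q.1 - q'.1) ^ 2 = 0 := by nlinarith [sq_nonneg (q.1 - q'.1)]
      have := pow_eq_zero_iff (two_ne_zero) |>.1 this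
      linarith
    have h2 : inD q' q.1 (2 * q.2) := by
      have : (!₂[q.1, 2 * q.2] : EuclideanSpace ℝ (Fin 2)) ∈ disk q := by
        rw [hmem q hq]; simp [inD]; nlinarith
      rw [h, hmem q' hq'] at this
      simpa using this
    have h3 : inD q q'.1 (2 * q'.2) := by
      have : (!₂[q'.1, 2 * q'.2] : EuclideanSpace ℝ (Fin 2)) ∈ disk q' := by
        rw [hmem q' hq']; simp [inD]; nlinarith
      rw [← h, hmem q hq] at this
      simpa using this
    unfold inD at h2 h3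
    rw [e1] at h2 h3
    have e2 : q.2 = q'.2 := by
      apply le_antisymm <;> nlinarith
    exact Prod.ext e1 e2
  set F := fam K (K ^ 2 + 1) 0 with hF
  have hpos : ∀ q ∈ F, 0 < q.2 := fun q hq => (fam_range K _ _ q hq).1
  refine ⟨K ^ 2 + 1, by nlinarith, F.image disk, ?_, ?_, ?_⟩
  · intro D hD
    obtain ⟨q, hq, rfl⟩ := Finset.mem_image.1 hD
    exact ⟨_, _, hpos q hq, rfl⟩
  · intro p
    have hsub : {D ∈ ((F.image disk : Finset _) : Set (Set (EuclideanSpace ℝ (Fin 2)))) | p ∈ D} ⊆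
        (((F.filter fun q => q.1 - q.2 ≤ p 0 ∧ p 0 ≤ q.1 + q.2).image disk : Finset _) : Set _) := by
      rintro D ⟨hD, hp⟩
      obtain ⟨q, hq, rfl⟩ := Finset.mem_image.1 hD
      exact Finset.mem_coe.2 (Finset.mem_image.2 ⟨q, Finset.mem_filter.2
        ⟨hq, inD_range (hpos q hq) ((hmem q (hpos q hq) p).1 hp)⟩, rfl⟩)
    calc _ ≤ _ := Set.ncard_le_ncard hsub (Finset.finite_toSet _)
      _ = _ := Set.ncard_coe_finset _
      _ ≤ _ := Finset.card_image_le
      _ ≤ K ^ 2 + 1 := by convert ply_le K (K ^ 2 + 1) 0 (p 0)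
  · intro k c hc
    have hlarge : K < (Set.range c).ncard := by
      by_contra hle
      push Not at hle
      have hroot : (0, rad K (K ^ 2 + 1)) ∈ F := mem_fam_succ.2 (Or.inl rfl)
      let D₀ : (F.image disk : Finset _) := ⟨_, Finset.mem_image_of_mem disk hroot⟩
      let col : ℝ × ℝ → Set.range c := fun q =>
        if h : q ∈ F then ⟨c ⟨disk q, Finset.mem_image_of_mem disk h⟩, _, rfl⟩ else ⟨c D₀, _, rfl⟩
      have hcard : Fintype.card (Set.range c) ≤ K := by
        rwa [← Set.toFinset_card, ← Set.ncard_eq_toFinset_card']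
      refine no_colouring hcard col ?_
      rintro x z ⟨q, hq, hqx⟩
      have hp : ∀ q ∈ F, (!₂[x, z] : EuclideanSpace ℝ (Fin 2)) ∈ disk q ↔ inD q x z := by
        intro q hq
        rw [hmem q (hpos q hq)]
        simp
      obtain ⟨⟨D, hD⟩, hpD, hu⟩ := hc !₂[x, z]
        ⟨⟨disk q, Finset.mem_image_of_mem disk hq⟩, (hp q hq).2 hqx⟩
      obtain ⟨q₁, hq₁, rfl⟩ := Finset.mem_image.1 hD
      refine ⟨q₁, hq₁, (hp q₁ hq₁).1 hpD, ?_⟩
      intro q' hq' hq'x hcol
      by_contra hne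
      have hq'F : q' ∈ F := hq'
      refine hu ⟨disk q', Finset.mem_image_of_mem disk hq'F⟩ ((hp q' hq'F).2 hq'x) ?_ ?_
      · intro e
        exact hne (hinj q' q₁ (hpos q' hq'F) (hpos q₁ hq₁) (congrArg Subtype.val e))
      · simp only [col, dif_pos hq'F, dif_pos hq₁] at hcol
        exact congrArg Subtype.val hcol
    have hn' : (1 : ℝ) ≤ n := by exact_mod_cast hn1
    have hlog : Real.log ((K ^ 2 + 1 : ℕ) : ℝ) ≤ 8 * n := by
      have h1 : ((K ^ 2 + 1 : ℕ) : ℝ) ≤ (2 * (n : ℝ)) ^ 4 := by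
        rw [hKdef]
        push_cast
        have : (1 : ℝ) ≤ (n : ℝ) ^ 4 := one_le_pow₀ hn'
        nlinarith
      have h2 : Real.log ((K ^ 2 + 1 : ℕ) : ℝ) ≤ Real.log ((2 * (n : ℝ)) ^ 4) :=
        Real.log_le_log (by positivity) h1
      have h3 : Real.log (2 * (n : ℝ)) ≤ 2 * n - 1 := Real.log_le_sub_one_of_pos (by positivity)
      rw [Real.log_pow] at h2
      push_cast at h2 ⊢
      linarith
    have hlog0 : 0 ≤ Real.log ((K ^ 2 + 1 : ℕ) : ℝ) := Real.log_natCast_nonneg _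
    have h4 : (K : ℝ) < ((Set.range c).ncard : ℝ) := by exact_mod_cast hlarge
    have h5 : (K : ℝ) = (n : ℝ) ^ 2 := by rw [hKdef]; push_cast; ring
    calc C * Real.log ((K ^ 2 + 1 : ℕ) : ℝ) ≤ |C| * Real.log ((K ^ 2 + 1 : ℕ) : ℝ) :=
          mul_le_mul_of_nonneg_right (le_abs_self C) hlog0
      _ ≤ |C| * (8 * n) := mul_le_mul_of_nonneg_left hlog hC
      _ ≤ (K : ℝ) := by rw [h5]; nlinarith
      _ < _ := h4

end Pool.Agent.Results.MP_f0f1b2_co.NotLogPly
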