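import Mathlib
import Pool.Agent.P.MP_f0f1b2_co.UM
import Pool.Agent.P.MP_f0f1b2_co.Greedy

/-!
The number of colours needed in unique-maximum colourings of disk families of ply at most `t`
has exactly linear order in `t`.
-/

namespace Pool.Agent.Results.MP_f0f1b2_co.UniqueMax

/-- A disk: a closed Euclidean disk of positive radius in the plane. -/
def IsDisk (D : Set (EuclideanSpace ℝ (Fin 2))) : Prop :=
  ∃ (z : EuclideanSpace ℝ (Fin 2)) (r : ℝ), 0 < r ∧ D = Metric.closedBall z r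

/-- The family has ply at most `t`: no point of the plane lies in more than `t` members. -/
def PlyLE (𝒟 : Finset (Set (EuclideanSpace ℝ (Fin 2)))) (t : ℕ) : Prop :=
  ∀ p : EuclideanSpace ℝ (Fin 2), {D ∈ (𝒟 : Set (Set (EuclideanSpace ℝ (Fin 2)))) | p ∈ D}.ncard ≤ t

/-- The colouring `c` is unique-maximum: every covered point lies in a member whose colour is
larger than the colour of every other member containing the point. -/
def IsUniqueMax (𝒟 : Finset (Set (EuclideanSpace ℝ (Fin 2)))) (c : 𝒟 → ℕ) : Prop :=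
  ∀ p : EuclideanSpace ℝ (Fin 2), (∃ D : 𝒟, p ∈ D.1) →
    ∃ D : 𝒟, p ∈ D.1 ∧ ∀ D' : 𝒟, p ∈ D'.1 → D' ≠ D → c D' < c D

/-- `k` colours suffice for a unique-maximum colouring of every finite family of disks of ply at
most `t`. -/
def Suffices (t k : ℕ) : Prop :=
  ∀ 𝒟 : Finset (Set (EuclideanSpace ℝ (Fin 2))), (∀ D ∈ 𝒟, IsDisk D) → PlyLE 𝒟 t →
    ∃ c : 𝒟 → ℕ, IsUniqueMax 𝒟 c ∧ (Set.range c).ncard ≤ k

open Pool.Agent.P.MP_f0f1b2_co in
theorem lower (t : ℕ) :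
    ∃ 𝒟 : Finset (Set (EuclideanSpace ℝ (Fin 2))), (∀ D ∈ 𝒟, IsDisk D) ∧ PlyLE 𝒟 t ∧
      ∀ c : 𝒟 → ℕ, IsUniqueMax 𝒟 c → t ≤ (Set.range c).ncard := by
  classical
  rcases t with _ | K
  · exact ⟨∅, by simp, fun p => by simp, fun _ _ => Nat.zero_le _⟩
  set F := fam K (K + 1) 0 with hF
  have hpos : ∀ q ∈ F, 0 < q.2 := fun q hq => (fam_range K _ _ q hq).1
  refine ⟨F.image disk, ?_, ?_, ?_⟩
  · intro D hD
    obtain ⟨q, hq, rfl⟩ := Finset.mem_image.1 hD
    exact ⟨_, _, hpos q hq, rfl⟩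
  · intro p
    have hsub : {D ∈ ((F.image disk : Finset _) : Set (Set (EuclideanSpace ℝ (Fin 2)))) | p ∈ D} ⊆
        (((F.filter fun q => q.1 - q.2 ≤ p 0 ∧ p 0 ≤ q.1 + q.2).image disk : Finset _) : Set _) := by
      rintro D ⟨hD, hp⟩
      obtain ⟨q, hq, rfl⟩ := Finset.mem_image.1 hD
      exact Finset.mem_coe.2 (Finset.mem_image.2 ⟨q, Finset.mem_filter.2
        ⟨hq, inD_range (hpos q hq) ((mem_disk (hpos q hq) p).1 hp)⟩, rfl⟩)
    calc _ ≤ _ := Set.ncard_le_ncard hsub (Finset.finite_toSet _)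
      _ = _ := Set.ncard_coe_finset _
      _ ≤ _ := Finset.card_image_le
      _ ≤ K + 1 := by convert ply_le K (K + 1) 0 (p 0)
  · intro c hc
    by_contra hle
    set R := Finset.univ.image c with hR
    have hRK : R.card ≤ K := by
      have : (Set.range c).ncard = R.card := by rw [← Set.ncard_coe_finset, hR]; simp
      omega
    have hroot : (0, rad K (K + 1)) ∈ F := mem_fam_succ.2 (Or.inl rfl)
    let e : ℝ × ℝ → (F.image disk : Finset _) := fun q =>
      if h : q ∈ F then ⟨disk q, Finset.mem_image_of_mem disk h⟩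
      else ⟨_, Finset.mem_image_of_mem disk hroot⟩
    have he : ∀ q (h : q ∈ F), e q = ⟨disk q, Finset.mem_image_of_mem disk h⟩ :=
      fun q h => dif_pos h
    have hmem : ∀ D, c D ∈ R.filter (· ≤ c D) := fun D => by simp [hR]
    refine no_um (K := K) (fun q => (R.filter (· ≤ c (e q))).card) (fun q => Finset.mem_Icc.2
      ⟨Finset.card_pos.2 ⟨_, hmem _⟩, (Finset.card_filter_le _ _).trans hRK⟩) ?_
    rintro x z ⟨q, hq, hqx⟩
    obtain ⟨⟨D, hD⟩, hpD, hu⟩ := hc !₂[x, z]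
      ⟨⟨disk q, Finset.mem_image_of_mem disk hq⟩, (mem_disk' (hpos q hq) x z).2 hqx⟩
    obtain ⟨q₁, hq₁, rfl⟩ := Finset.mem_image.1 hD
    refine ⟨q₁, hq₁, (mem_disk' (hpos q₁ hq₁) x z).1 hpD, fun q' hq' hq'x hne => ?_⟩
    have hlt : c (e q') < c (e q₁) := by
      rw [he q' hq', he q₁ hq₁]
      exact hu _ ((mem_disk' (hpos q' hq') x z).2 hq'x) fun h =>
        hne (disk_inj (hpos q' hq') (hpos q₁ hq₁) (congrArg Subtype.val h))
    refine Finset.card_lt_card ⟨fun y hy => ?_, fun h => ?_⟩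
    · rw [Finset.mem_filter] at hy ⊢
      exact ⟨hy.1, hy.2.trans hlt.le⟩
    · exact absurd (Finset.mem_filter.1 (h (hmem _))).2 (not_le.2 hlt)

open Pool.Agent.P.MP_f0f1b2_co in
theorem upper (t : ℕ) : Suffices t (9 * t) := by
  classical
  intro 𝒟 hd hp
  choose! ζ ρ h1 h2 using hd
  obtain ⟨c, hc1, hc2⟩ := greedy ζ ρ 𝒟 (fun D hD => ⟨h1 D hD, h2 D hD⟩) hp
  refine ⟨fun D => c D, fun p ⟨D₀, hD₀⟩ => ?_, ?_⟩
  · obtain ⟨D, hD, hmax⟩ := Finset.exists_max_image (Finset.univ.filter fun D : 𝒟 => p ∈ D.1)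
      (fun D => c D) ⟨D₀, by simpa using hD₀⟩
    have hpD : p ∈ D.1 := by simpa using hD
    exact ⟨D, hpD, fun D' h hne => lt_of_le_of_ne (hmax D' (by simpa using h))
      (hc2 _ D'.2 _ D.2 (fun e => hne (Subtype.ext e)) p h hpD)⟩
  · refine (Set.ncard_le_ncard (t := ↑(Finset.range (9 * t))) ?_ (Finset.finite_toSet _)).trans
      (by rw [Set.ncard_coe_finset, Finset.card_range])
    rintro _ ⟨D, rfl⟩
    simpa using hc1 _ D.2

theorem result (t : ℕ) : ∃ k : ℕ, IsLeast {j | Suffices t j} k ∧ t ≤ k ∧ k ≤ 9 * t := by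
  classical
  have hex : ∃ j, Suffices t j := ⟨_, upper t⟩
  refine ⟨Nat.find hex, ⟨Nat.find_spec hex, fun j hj => Nat.find_min' hex hj⟩, ?_,
    Nat.find_min' hex (upper t)⟩
  obtain ⟨𝒟, h1, h2, h3⟩ := lower t
  obtain ⟨c, hc, hk⟩ := Nat.find_spec hex 𝒟 h1 h2
  exact (h3 c hc).trans hk

end Pool.Agent.Results.MP_f0f1b2_co.UniqueMax
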